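import Pool.Agent.H85.SC.Targets

/-!
Module PVL: values of the pieces on the regions.
-/

namespace Pool.Agent.H14.SC

open Pool.Agent.H85.SC

theorem ind_t {P : ℤ → Prop} {z : ℤ} (h : P z) : ind P z = 1 := by
  simp [ind, h]

theorem ind_f {P : ℤ → Prop} {z : ℤ} (h : ¬ P z) : ind P z = 0 := by
  simp [ind, h]

theorem lvl_pow {n i : ℕ} (h : i = 2 ^ lg i) : lvl n i = n := by
  unfold lvl
  omega

theorem slot_lt {n i i' : ℕ} (h : i' < i) : slot n i' < slot n i := by
  unfold slot
  have : i' ^ 2 < i ^ 2 := Nat.pow_lt_pow_left h (by norm_num)
  omega

theorem slot_pos {n i : ℕ} (h : 1 ≤ i) : 1 ≤ slot n i := by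
  unfold slot
  have : 1 ≤ i ^ 2 := Nat.one_le_pow _ _ h
  omega

theorem pvl (hV : T_VVS) (hA : T_APD) (_hL : T_LAB) : T_PVL := by
  obtain ⟨-, -, -, hV4⟩ := hV
  obtain ⟨hA1, hA2, hA3, -⟩ := hA
  intro n i n' i' z hval hreg
  obtain ⟨hval', hz1, hz2, hP, -⟩ := hreg
  have hVV : ∀ r, VV r z = if slot n' i' ≤ r then 1 else 0 := fun r => hV4 r _ z hz1 hz2
  by_cases hn : n' = n
  · subst hn
    have hs : 1 ≤ slot n' i := slot_pos hval.1
    by_cases hi : i = 2 ^ lg i
    · by_cases hi' : i' = 2 ^ lg i'
      · have hinh : inh n' z := by
          rcases hP with h | h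
          · exact h.2
          · exact absurd hi' h.1
        unfold pm
        rw [if_pos hi, ind_t hinh, hVV, hVV]
        rcases lt_trichotomy i' i with h | h | h
        · have h1 := slot_lt (n := n') h
          rw [if_pos (by omega), if_pos (by omega), if_neg (by omega), if_pos ⟨rfl, hi, hi', h⟩]
          rw [lvl_pow hi, lvl_pow hi']
          unfold s1 s2
          rw [lvl_pow hi']
          push_cast
          ring
        · subst h
          rw [if_pos (by omega), if_neg (by omega), if_pos ⟨rfl, rfl⟩]
          unfold s1 s2 s3
          push_cast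
          ring
        · have h1 := slot_lt (n := n') h
          rw [if_neg (by omega), if_neg (by omega), if_neg (by omega), if_neg (by omega)]
          push_cast
          ring
      · have hing : ing n' z := by
          rcases hP with h | h
          · exact absurd h.1 hi'
          · exact h.2
        have hninh : ¬ inh n' z := fun h => hA3 _ _ z h hing
        have hne : i' ≠ i := fun h => hi' (h ▸ hi)
        unfold pm
        rw [if_pos hi, ind_f hninh, if_neg (fun h => hne h.2), if_neg (fun h => hi' h.2.2.1)]
        ring
    · by_cases hi' : i' = 2 ^ lg i'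
      · have hinh : inh n' z := by
          rcases hP with h | h
          · exact h.2
          · exact absurd hi' h.1
        have hning : ¬ ing n' z := fun h => hA3 _ _ z hinh h
        have hne : i' ≠ i := fun h => hi (h ▸ hi')
        unfold pm
        rw [if_neg hi, ind_f hning, if_neg (fun h => hne h.2), if_neg (fun h => hi h.2.1)]
        ring
      · have hing : ing n' z := by
          rcases hP with h | h
          · exact absurd h.1 hi'
          · exact h.2
        unfold pm
        rw [if_neg hi, ind_t hing, hVV, hVV]
        rcases lt_trichotomy i' i with h | h | h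
        · have h1 := slot_lt (n := n') h
          rw [if_pos (by omega), if_pos (by omega), if_neg (by omega), if_neg (fun h => hi h.2.1)]
          push_cast
          ring
        · subst h
          rw [if_pos (by omega), if_neg (by omega), if_pos ⟨rfl, rfl⟩]
          unfold s1 s2 s3
          push_cast
          ring
        · have h1 := slot_lt (n := n') h
          rw [if_neg (by omega), if_neg (by omega), if_neg (by omega), if_neg (fun h => hi h.2.1)]
          push_cast
          ring
  · have h1 : ¬ inh n z := by
      intro h
      rcases hP with h' | h'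
      · exact hn (hA1 _ _ z h'.2 h)
      · exact hA3 _ _ z h h'.2
    have h2 : ¬ ing n z := by
      intro h
      rcases hP with h' | h'
      · exact hA3 _ _ z h'.2 h
      · exact hn (hA2 _ _ z h'.2 h)
    unfold pm
    simp only [hn, false_and, if_false, ind_f h1, ind_f h2]
    split_ifs <;> ring

end Pool.Agent.H14.SC
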